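import Pool.Agent.W5h91.Nip.VC

/-!
# The integers with finitely many cyclic orders are NIP

For real numbers `α 0, …, α (n - 1)` (arbitrary: irrational or not, linearly independent or not) the
structure `(ℤ; +, C_{α 0}, …, C_{α (n - 1)})` is NIP: no formula `φ(x; y)` in the language with a binary
function symbol and `n` ternary relation symbols has the independence property in a model of its complete
theory.  The question is the case `n = 2`, `α = ![α, β]`, with `α`, `β` irrational and linearly
independent over `ℚ`.

* `Cyc α a b c`: the cyclic order `C_α(a, b, c)`, defined by the fractional parts as in the question.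
* `cycLang n`: the language with a binary function symbol and `n` ternary relation symbols.
* `ZC α`: the integers with addition and the relations `C_{α i}`.
* `IsNIP T`: no model `M` of `T` (in any universe) contains tuples `a i` (`i : ℕ`) and `b S` (`S : Set ℕ`)
  such that `φ(a i; b S)` holds if and only if `i ∈ S`.

Idea of the proof.  Choose `γ 0, …, γ (d - 1)` which together with `1` are linearly independent over `ℚ`
and such that the `α i` are rational combinations of `1` and the `γ j`.  A subset of `ℤ ^ k` is tame if,
for some `N`, `M`, `B`, the membership of `x` depends only on `x` modulo `N` and on the signs of the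
integral affine forms with coefficients of absolute value at most `B` in the fractional parts of
`x i * γ j / M`.  Atomic formulas are tame.  Tame sets are closed under projections: if no form which
involves the new variable `y` vanishes then this follows from the density of the points
`(y γ j / M) mod 1` and the back and forth property of the ordered group of real numbers; otherwise
`m y` is an integral linear combination of the other variables.  Finally a family of tame sets
traces only polynomially many subsets on a finite set, because each form contributes a chain.
-/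

set_option autoImplicit false

namespace Pool.Agent.Results.MP_66c0d0_lc.CyclicOrdersNIP

open Pool.Agent.W5h91.Nip FirstOrder

universe u

theorem result (n : ℕ) (α : Fin n → ℝ) : IsNIP.{u} ((cycLang n).completeTheory (ZC α)) := by
  obtain ⟨d, γ, D, a₀, a, hd, hD, hγ, hα⟩ := basis n α
  intro M _ _ _ p q φ
  have h1 := formula_tame hd hγ hD a₀ a hα (β := Fin p ⊕ Fin q) (m := 0) φ
  -- as a property of the free variables
  have h2 : Tame γ fun z : Fin p ⊕ Fin q → ℤ => FirstOrder.Language.Formula.Realize (M := ZC α) φ z := by
    obtain ⟨N, K, B, hN, hK, h⟩ := h1
    refine ⟨N, K, B, hN, hK, fun x x' hx => ?_⟩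
    have e : ∀ z : Fin p ⊕ Fin q → ℤ, (FirstOrder.Language.Formula.Realize (M := ZC α) φ z ↔
        FirstOrder.Language.BoundedFormula.Realize (M := ZC α) φ
          (fun b => (Sum.elim z Fin.elim0 : (Fin p ⊕ Fin q) ⊕ Fin 0 → ℤ) (Sum.inl b))
          (fun i => (Sum.elim z Fin.elim0 : (Fin p ⊕ Fin q) ⊕ Fin 0 → ℤ) (Sum.inr i))) := by
      intro z
      unfold FirstOrder.Language.Formula.Realize
      have : (default : Fin 0 → ZC α) =
          (fun i => (Sum.elim z Fin.elim0 : (Fin p ⊕ Fin q) ⊕ Fin 0 → ℤ) (Sum.inr i)) :=
        Subsingleton.elim _ _
      rw [this]
      exact Iff.rfl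
    refine (e x).trans ((h _ _ ?_).trans (e x').symm)
    have h3 := hx.reindex (Equiv.sumEmpty (Fin p ⊕ Fin q) (Fin 0))
    have h4 : ∀ z : Fin p ⊕ Fin q → ℤ, (fun i => z (Equiv.sumEmpty (Fin p ⊕ Fin q) (Fin 0) i)) =
        (Sum.elim z Fin.elim0 : (Fin p ⊕ Fin q) ⊕ Fin 0 → ℤ) := by
      intro z
      funext i
      rcases i with i | i
      · rfl
      · exact i.elim0
    rw [h4, h4] at h3
    exact h3
  obtain ⟨t, ht⟩ := tame_vc h2
  exact not_hasIP (ZC α) φ t ht M

end Pool.Agent.Results.MP_66c0d0_lc.CyclicOrdersNIP
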